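import Pool.Agent.W423.NI.Defs
import Pool.Agent.W902.JIFini
import Pool.Agent.W398.MM.A6

/-!
# Project NI, part UNM

If all the polynomials have the same exponents and no exponent is `1`, then `NoB1I` holds.
-/

set_option autoImplicit false

namespace Pool.Agent.W308.NI

open Pool.Agent.W428.MOT
open Pool.Agent.W426.SM (AffInd gord ford IsRay face)
open Pool.Agent.W749.JI
open Pool.Agent.W425.MM (NonB NB)
open Pool.Agent.W902.JIFini (cay_sum cay_sumQ gord_add face_iff)
open Pool.Agent.W423.NI (SameExp NoB1I)

theorem gord_le {n k : ℕ} (m : Fin k → Fin n → ℕ) (a : Fin n → ℕ) (j : Fin k) :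
    gord m a ≤ ∑ i, a i * m j i := ciInf_le' _ j

theorem gord_att {n k : ℕ} (hk : 0 < k) (m : Fin k → Fin n → ℕ) (a : Fin n → ℕ) :
    ∃ j, ∑ i, a i * m j i = gord m a := by
  have : Nonempty (Fin k) := ⟨⟨0, hk⟩⟩
  exact exists_eq_ciInf_of_finite (f := fun j => ∑ i, a i * m j i)

/-- the transfer of `NonB` -/
theorem nonB_cay {n k r : ℕ} (π : Fin k → Fin r) (m : Fin k → Fin n → ℕ) (hk : 0 < k)
    (w : Fin n → ℕ) (hN : 0 < gord m w) (h : NonB m True w) :
    NonB (cay π m) True (Fin.append w 0) := by
  obtain ⟨J, hJ, hf, hli, hnb, hloc⟩ := h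
  have hL : ∀ v, (Fin.append w 0 : Fin (n + r) → ℕ) (Fin.castAdd r v) = w v := fun v =>
    Fin.append_left _ _ _
  have hR : ∀ i, (Fin.append w 0 : Fin (n + r) → ℕ) (Fin.natAdd n i) = 0 := fun i => by
    rw [Fin.append_right]; rfl
  have hcL : ∀ j v, cay π m j (Fin.castAdd r v) = m j v := fun j v => by
    simp [cay]
  have hcR : ∀ j i, cay π m j (Fin.natAdd n i) = if π j = i then 1 else 0 := fun j i => by
    simp [cay]
  refine ⟨J, ?_, fun j hj => (face_iff π hk m w j).2 (hf j hj), ?_, ?_, ?_⟩
  · rw [hJ]
    have he : (Finset.univ.filter fun i : Fin (n + r) =>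
        (Fin.append w 0 : Fin (n + r) → ℕ) i ≠ 0) =
        (Finset.univ.filter fun v : Fin n => w v ≠ 0).map (Fin.castAddEmb r) := by
      ext i
      simp only [Finset.mem_filter, Finset.mem_univ, true_and, Finset.mem_map]
      refine Fin.addCases (fun v => ?_) (fun i => ?_) i
      · rw [hL]
        constructor
        · intro h
          exact ⟨v, h, rfl⟩
        · rintro ⟨v', h, h'⟩
          have : v' = v := Fin.castAdd_injective n r h'
          rwa [← this]
      · rw [hR]
        constructor
        · intro h
          exact absurd rfl h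
        · rintro ⟨v', h, h'⟩
          exfalso
          have := congrArg Fin.val h'
          simp at this
          omega
    rw [he, Finset.card_map]
  · let φ : {v : Fin n // w v ≠ 0} → {i : Fin (n + r) // (Fin.append w 0 : Fin (n + r) → ℕ) i ≠ 0} :=
      fun v => ⟨Fin.castAdd r v.1, by rw [hL]; exact v.2⟩
    refine LinearIndependent.of_comp (LinearMap.funLeft ℚ ℚ φ) ?_
    have he : (LinearMap.funLeft ℚ ℚ φ) ∘ (fun j : J => (fun i => (cay π m j i : ℚ) :
        {i : Fin (n + r) // (Fin.append w 0 : Fin (n + r) → ℕ) i ≠ 0} → ℚ)) =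
        (fun j : J => (fun i => (m j i : ℚ) : {i // w i ≠ 0} → ℚ)) := by
      funext j v
      simp only [Function.comp_apply, LinearMap.funLeft_apply, φ, hcL]
    rw [he]
    exact hli
  · intro i
    refine Fin.addCases (fun v => ?_) (fun i => ?_) i
    · intro hi
      rw [hL] at hi
      intro ⟨j0, hj0, h1, h2⟩
      refine hnb v hi ⟨j0, hj0, ?_, fun j hj hjj => ?_⟩
      · rw [← hcL]
        exact h1
      · rw [← hcL]
        exact h2 j hj hjj
    · intro hi
      exact absurd (hR i) hi
  · intro _ l hl c hc hrel
    have hl' : face m w l := (face_iff π hk m w l).1 hl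
    have hrel' : ∀ v, w v ≠ 0 → ∑ j, c j * (m j v : ℚ) = (m l v : ℚ) := by
      intro v hv
      have := hrel (Fin.castAdd r v) (by rw [hL]; exact hv)
      simpa only [hcL] using this
    have h1 := hloc trivial l hl' c hc hrel'
    have hh : ∀ j, (∑ i, (if (Fin.append w 0 : Fin (n + r) → ℕ) i = 0 then (cay π m j i : ℚ) else 0))
        = (∑ v, (if w v = 0 then (m j v : ℚ) else 0)) + 1 := by
      intro j
      rw [Fin.sum_univ_add]
      congr 1
      · exact Finset.sum_congr rfl fun v _ => by rw [hL, hcL]
      · simp only [hR, hcR, if_true]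
        simp
    have hs : ∑ j, c j = 1 := by
      have h2 : ∑ v, (w v : ℚ) * ∑ j, c j * (m j v : ℚ) = ∑ v, (w v : ℚ) * (m l v : ℚ) := by
        refine Finset.sum_congr rfl fun v _ => ?_
        by_cases hv : w v = 0
        · rw [hv]
          simp
        · rw [hrel' v hv]
      have h3 : ∑ v, (w v : ℚ) * (m l v : ℚ) = (gord m w : ℚ) := by
        rw [← hl']
        push_cast
        rfl
      have h4 : ∑ v, (w v : ℚ) * ∑ j, c j * (m j v : ℚ) = (∑ j, c j) * (gord m w : ℚ) := by
        simp only [Finset.mul_sum]
        rw [Finset.sum_comm, Finset.sum_mul]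
        refine Finset.sum_congr rfl fun j _ => ?_
        by_cases hj : j ∈ J
        · have h5 : ∑ v, w v * m j v = gord m w := hf j hj
          rw [← h5]
          push_cast
          rw [Finset.mul_sum]
          exact Finset.sum_congr rfl fun v _ => by ring
        · rw [hc j hj]
          simp
      have hN' : (gord m w : ℚ) ≠ 0 := by exact_mod_cast hN.ne'
      have h6 : (∑ j, c j) * (gord m w : ℚ) = 1 * (gord m w : ℚ) := by
        rw [← h4, h2, h3, one_mul]
      exact mul_right_cancel₀ hN' h6
    simp only [hh]
    have h7 : ∑ j, c j * ((∑ v, (if w v = 0 then (m j v : ℚ) else 0)) + 1) =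
        (∑ j, c j * (∑ v, (if w v = 0 then (m j v : ℚ) else 0))) + ∑ j, c j := by
      rw [← Finset.sum_add_distrib]
      exact Finset.sum_congr rfl fun j _ => by ring
    rw [h7, hs]
    linarith

theorem unm : Pool.Agent.W423.NI.TaskUnm := by
  intro n k r π m hk hπ hse hm a hray hN _
  -- the two parts
  obtain ⟨w, η, rfl⟩ : ∃ (w : Fin n → ℕ) (η : Fin r → ℕ), a = Fin.append w η :=
    ⟨fun v => a (Fin.castAdd r v), fun i => a (Fin.natAdd n i),
      (Fin.append_castAdd_natAdd (f := a)).symm⟩
  have hsum : ∀ j, ∑ i, (Fin.append w η : Fin (n + r) → ℕ) i * cay π m j i =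
      ∑ v, w v * m j v + η (π j) := by
    intro j
    rw [cay_sum]
    simp [Fin.append_left, Fin.append_right]
  have hr : Nonempty (Fin r) := ⟨π ⟨0, hk⟩⟩
  obtain ⟨i0, hi0⟩ := Finite.exists_min η
  obtain ⟨j0, hj0⟩ := gord_att hk m w
  have hgord : gord (cay π m) (Fin.append w η) = gord m w + η i0 := by
    apply le_antisymm
    · obtain ⟨j1, h1, h2⟩ := hse i0 j0
      have h3 := gord_le (cay π m) (Fin.append w η) j1
      rw [hsum, h1, h2, hj0] at h3
      exact h3
    · obtain ⟨j1, h1⟩ := gord_att hk (cay π m) (Fin.append w η)
      rw [← h1, hsum]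
      exact Nat.add_le_add (gord_le m w j1) (hi0 _)
  have hface : ∀ j, face (cay π m) (Fin.append w η) j → η (π j) = η i0 := by
    intro j hj
    unfold face at hj
    rw [hsum, hgord] at hj
    have h1 := gord_le m w j
    have h2 := hi0 (π j)
    omega
  have hgord0 : gord m 0 = 0 := by
    obtain ⟨j, hj⟩ := gord_att hk m 0
    rw [← hj]
    simp
  by_cases hc : ∃ i, η i ≠ η i0
  · exfalso
    obtain ⟨i, hi⟩ := hc
    have hlt : η i0 < η i := lt_of_le_of_ne (hi0 i) (Ne.symm hi)
    obtain ⟨ρ, hρ⟩ := hray.2 (Pi.single (Fin.natAdd n i) 1) (fun i' hi' => by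
      rw [Pi.single_apply, if_neg]
      rintro rfl
      rw [Fin.append_right] at hi'
      omega) (fun j j' hj hj' => by
      have hz : ∀ j, face (cay π m) (Fin.append w η) j →
          ∑ i', (Pi.single (Fin.natAdd n i) 1 : Fin (n + r) → ℚ) i' * (cay π m j i' : ℚ) = 0 := by
        intro j hj
        rw [cay_sumQ]
        have h1 := hface j hj
        have h2 : π j ≠ i := by
          rintro rfl
          exact hi h1
        have h3 : (Fin.natAdd n (π j)) ≠ Fin.natAdd n i := by
          intro h
          exact h2 (by simpa using h)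
        rw [Pi.single_eq_of_ne h3, add_zero]
        refine Finset.sum_eq_zero fun v _ => ?_
        have h4 : (Fin.castAdd r v) ≠ Fin.natAdd n i := by
          intro h
          have := congrArg Fin.val h
          simp at this
          omega
        rw [Pi.single_eq_of_ne h4, zero_mul]
      rw [hz j hj, hz j' hj'])
    have h1 := hρ (Fin.natAdd n i)
    rw [Pi.single_eq_same] at h1
    have hρ0 : ρ ≠ 0 := by
      rintro rfl
      rw [zero_mul] at h1
      exact one_ne_zero h1
    have h2 : ∀ i', i' ≠ Fin.natAdd n i → (Fin.append w η : Fin (n + r) → ℕ) i' = 0 := by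
      intro i' hi'
      have h3 := hρ i'
      rw [Pi.single_eq_of_ne hi'] at h3
      have h4 := (mul_eq_zero.1 h3.symm).resolve_left hρ0
      exact_mod_cast h4
    have hw : w = 0 := by
      funext v
      have h4 : (Fin.castAdd r v) ≠ Fin.natAdd n i := by
        intro h
        have := congrArg Fin.val h
        simp at this
        omega
      have := h2 _ h4
      rw [Fin.append_left] at this
      exact this
    have hη : η i0 = 0 := by
      have h4 : (Fin.natAdd n i0) ≠ Fin.natAdd n i := by
        intro h
        have : i0 = i := by simpa using h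
        rw [this] at hlt
        omega
      have := h2 _ h4
      rw [Fin.append_right] at this
      exact this
    rw [hgord, hw, hgord0, hη] at hN
    omega
  · push Not at hc
    by_cases ht : η i0 = 0
    · -- the last case
      right
      have hη : η = 0 := funext fun i => by rw [hc i, ht]; rfl
      subst hη
      have hg : gord (cay π m) (Fin.append w 0) = gord m w := by
        rw [hgord]; rfl
      have hNw : 0 < gord m w := by rw [← hg]; exact hN
      have hw : IsRay m w := by
        refine ⟨fun h => hray.1 ?_, fun u hu hf => ?_⟩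
        · funext i
          refine Fin.addCases (fun v => ?_) (fun i => ?_) i
          · rw [Fin.append_left, h]; rfl
          · rw [Fin.append_right]; rfl
        · obtain ⟨ρ, hρ⟩ := hray.2 (Fin.append u 0) (fun i => by
            refine Fin.addCases (fun v => ?_) (fun i => ?_) i
            · rw [Fin.append_left, Fin.append_left]
              exact hu v
            · rw [Fin.append_right, Fin.append_right]
              intro _
              rfl) (fun j j' hj hj' => by
            have h1 := hf j j' ((face_iff π hk m w j).1 hj) ((face_iff π hk m w j').1 hj')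
            rw [cay_sumQ, cay_sumQ]
            simp only [Fin.append_left, Fin.append_right, Pi.zero_apply, add_zero]
            exact h1)
          refine ⟨ρ, fun v => ?_⟩
          have := hρ (Fin.castAdd r v)
          rw [Fin.append_left, Fin.append_left] at this
          exact this
      refine ⟨Fin.append w 0, hN, nonB_cay π m hk w hNw
        (Pool.Agent.W398.MM.A6.main m True hk hm w hw hNw), 0, by simp⟩
    · left
      obtain ⟨ρ, hρ⟩ := hray.2 (Fin.append 0 1) (fun i => by
        refine Fin.addCases (fun v => ?_) (fun i => ?_) i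
        · intro _
          rw [Fin.append_left]
          rfl
        · rw [Fin.append_right, hc i]
          intro h
          exact absurd h ht) (fun j j' _ _ => by
        rw [cay_sumQ, cay_sumQ]
        simp [Fin.append_left, Fin.append_right])
      have h1 := hρ (Fin.natAdd n i0)
      rw [Fin.append_right, Fin.append_right] at h1
      have hρ0 : ρ ≠ 0 := by
        rintro rfl
        rw [zero_mul] at h1
        simp at h1
      have hw : w = 0 := by
        funext v
        have h3 := hρ (Fin.castAdd r v)
        rw [Fin.append_left, Fin.append_left] at h3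
        have h4 := (mul_eq_zero.1 h3.symm).resolve_left hρ0
        exact_mod_cast h4
      rw [hgord, hw, hgord0, zero_add]
      rw [Fin.sum_univ_add]
      simp only [Fin.append_left, Fin.append_right, Pi.zero_apply, hc, Finset.sum_const_zero,
        Finset.sum_const, smul_eq_mul, zero_add]
      exact Dvd.intro_left _ rfl

end Pool.Agent.W308.NI
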